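import Pool.Agent.Work.MP_0acc7f_lc.Poly

/-!
# REACH is NP-hard

Deciding whether some execution of the Roth-Vande Vate mechanism started at a given matching stops
at a given stable matching is NP-hard, even if the initial matching is perfect.
-/

set_option autoImplicit false

namespace Pool.Agent.Results.MP_0acc7f_lc.NPHard

open Pool.Agent.Reach

/-- Every language in NP is polynomial-time many-one reducible to REACH. -/
theorem result : ∀ L ∈ N68a2faeb.NP, ∃ f : List Bool → List Bool,
    N68a2faeb.IsPolyTime f ∧ ∀ x, L x = true ↔ ReachLang (f x) :=
  fun _ h => hard h

end Pool.Agent.Results.MP_0acc7f_lc.NPHard
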